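import Mathlib
import Pool.Agent.TH231.DFM.Stmts

/-!
# Covariance of the vectors of the SK Hamiltonian
-/

set_option autoImplicit false

namespace Pool.TH859.DFM

open Pool.TH231.DFM Finset

theorem sg_sq (s : Fin 2) : sg s * sg s = 1 := by
  unfold sg
  rw [← pow_add, ← two_mul, pow_mul]
  norm_num

theorem sum_lt (N : ℕ) (a : Fin N → ℝ) (ha : ∀ i, a i * a i = 1) :
    ∑ p : Fin N × Fin N, (if p.1 < p.2 then a p.1 * a p.2 else 0) = ((∑ i, a i) ^ 2 - N) / 2 := by
  have h1 : ∑ p : Fin N × Fin N, (if p.2 < p.1 then a p.1 * a p.2 else 0) =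
      ∑ p : Fin N × Fin N, (if p.1 < p.2 then a p.1 * a p.2 else 0) := by
    rw [← (Equiv.prodComm (Fin N) (Fin N)).sum_comp]
    apply Finset.sum_congr rfl
    intro p _
    simp only [Equiv.prodComm_apply, Prod.fst_swap, Prod.snd_swap]
    rw [mul_comm (a p.2)]
    rfl
  have h2 : ∑ p : Fin N × Fin N, (if p.1 = p.2 then a p.1 * a p.2 else 0) = N := by
    rw [Fintype.sum_prod_type]
    simp [ha]
  have h3 : (∑ i, a i) ^ 2 = ∑ p : Fin N × Fin N, a p.1 * a p.2 := by
    rw [sq, Finset.sum_mul_sum, Fintype.sum_prod_type]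
  have h4 : ∑ p : Fin N × Fin N, a p.1 * a p.2 =
      ∑ p : Fin N × Fin N, (if p.1 < p.2 then a p.1 * a p.2 else 0) +
      ∑ p : Fin N × Fin N, (if p.2 < p.1 then a p.1 * a p.2 else 0) +
      ∑ p : Fin N × Fin N, (if p.1 = p.2 then a p.1 * a p.2 else 0) := by
    rw [← Finset.sum_add_distrib, ← Finset.sum_add_distrib]
    apply Finset.sum_congr rfl
    intro p _
    rcases lt_trichotomy p.1 p.2 with h | h | h
    · simp [h, h.not_gt, h.ne]
    · simp [h]
    · simp [h, h.not_gt, h.ne']
  rw [h3, h4, h1, h2]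
  ring

/-- **COV.** -/
theorem t_COV : St_COV := by
  intro β N hN σ τ
  have hN0 : (0 : ℝ) < N := by exact_mod_cast hN
  set a : Fin N → ℝ := fun i => sg (σ i) * sg (τ i) with ha
  have haa : ∀ i, a i * a i = 1 := by
    intro i
    have h1 := sg_sq (σ i)
    have h2 := sg_sq (τ i)
    simp only [ha]
    calc sg (σ i) * sg (τ i) * (sg (σ i) * sg (τ i)) = (sg (σ i) * sg (σ i)) * (sg (τ i) * sg (τ i)) := by
          ring
      _ = 1 := by rw [h1, h2, one_mul]
  have hR : RR N σ τ = (∑ i, a i) / N := rfl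
  refine ⟨?_, ?_, ?_⟩
  · have h1 : ip (uu β N σ) (uu β N τ) =
        β ^ 2 / N * ∑ p : Fin N × Fin N, (if p.1 < p.2 then a p.1 * a p.2 else 0) := by
      unfold ip
      rw [Finset.mul_sum]
      apply Finset.sum_congr rfl
      intro p _
      unfold uu
      by_cases h : p.1 < p.2
      · simp only [h, if_true, ha]
        have h3 : β / √(N : ℝ) * (β / √(N : ℝ)) = β ^ 2 / N := by
          rw [div_mul_div_comm, Real.mul_self_sqrt hN0.le, sq]
        rw [← h3]
        ring
      · simp [h]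
    rw [h1, sum_lt N a haa, hR]
    field_simp
  · rw [hR, abs_div, abs_of_pos hN0, div_le_one hN0]
    refine (Finset.abs_sum_le_sum_abs _ _).trans ?_
    have : ∀ i, |a i| = 1 := by
      intro i
      have h := haa i
      have h2 : |a i| * |a i| = 1 := by rw [abs_mul_abs_self, h]
      nlinarith [abs_nonneg (a i)]
    simp [this]
  · unfold RR
    simp only [sg_sq]
    simp
    omega

end Pool.TH859.DFM
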